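import Pool.Agent.Lib.MP_e1f7e2_al.FA.H47.Gr

/-!
# DEG
-/

set_option autoImplicit false
set_option linter.all false

open Finset

namespace Pool.Agent.Lib.MP_e1f7e2_al.FA.H47

open Gr

section

variable {K : Type*} [Field K] {n : ℕ} {w : Fin n → ℝ}

open Classical in
lemma coeff_one (u : Wd n) : (1 : A K n).coeff u = if u = 1 then 1 else 0 := by
  rw [MonoidAlgebra.one_def, MonoidAlgebra.coeff_single_apply]
  by_cases h : u = 1
  · rw [if_pos h.symm, if_pos h]
  · rw [if_neg (fun h' => h h'.symm), if_neg h]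

lemma exists_delta (hw : ∀ i, 0 < w i) : ∃ δ : ℝ, 0 < δ ∧ ∀ i, δ ≤ w i := by
  rcases Nat.eq_zero_or_pos n with h | h
  · subst h
    exact ⟨1, one_pos, fun i => i.elim0⟩
  · haveI : Nonempty (Fin n) := ⟨⟨0, h⟩⟩
    obtain ⟨i, hi⟩ := Finite.exists_min w
    exact ⟨w i, hw i, hi⟩

lemma len_le {δ : ℝ} (h : ∀ i, δ ≤ w i) (u : Wd n) : δ * u.toList.length ≤ wt w u := by
  induction u using FreeMonoid.inductionOn' with
  | one => rw [wt_one, FreeMonoid.toList_one, List.length_nil, Nat.cast_zero, mul_zero]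
  | of_mul i u ih =>
    rw [wt_mul, wt_of, FreeMonoid.toList_mul, FreeMonoid.toList_of, List.length_append,
      List.length_singleton]
    push_cast
    have := h i
    linarith

lemma fin_wt (hw : ∀ i, 0 < w i) (r : ℝ) : {x : ℝ | x ≤ r ∧ ∃ u : Wd n, x = wt w u}.Finite := by
  obtain ⟨δ, hδ, hd⟩ := exists_delta hw
  have h1 : {l : List (Fin n) | l.length ≤ ⌊r / δ⌋₊}.Finite := List.finite_length_le _ _
  refine (h1.image fun l => wt w (FreeMonoid.ofList l)).subset ?_
  rintro x ⟨hx, u, rfl⟩
  refine ⟨u.toList, ?_, ?_⟩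
  · have h2 := len_le hd u
    have h3 : (u.toList.length : ℝ) ≤ r / δ := by
      rw [le_div_iff₀ hδ]
      linarith
    exact Nat.le_floor h3
  · simp only [FreeMonoid.ofList_toList]

lemma poly_lem (h0 : ∀ i, 0 < w i) (g : A K n) (R : Polynomial K) (hg : 0 < dg w g)
    (hpow : ∀ k : ℕ, dg w (g ^ k) = k * dg w g) :
    dg w (Polynomial.aeval g R) = R.natDegree * dg w g := by
  have h0' : ∀ u, 0 ≤ wt w u := wt_nonneg h0
  by_cases hR : R = 0
  · subst hR
    rw [map_zero, Polynomial.natDegree_zero, Nat.cast_zero, zero_mul]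
    exact dgr_zero
  · rw [Polynomial.aeval_eq_sum_range, Finset.sum_range_succ]
    have hlead : dg w (R.coeff R.natDegree • g ^ R.natDegree) = R.natDegree * dg w g := by
      rw [← hpow]
      exact dgr_smul (Polynomial.leadingCoeff_ne_zero.2 hR) _
    rcases Nat.eq_zero_or_pos R.natDegree with h | h
    · have h1 : ∑ x ∈ range R.natDegree, R.coeff x • g ^ x = 0 := by
        rw [h, Finset.sum_range_zero]
      rw [h1, zero_add, hlead]
    · have h2 : dg w (∑ x ∈ range R.natDegree, R.coeff x • g ^ x) < R.natDegree * dg w g := by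
        refine lt_of_le_of_lt (dgr_sum_le h0' _ _ ((R.natDegree - 1 : ℕ) * dg w g)
          (by positivity) ?_) ?_
        · intro i hi
          rw [Finset.mem_range] at hi
          refine (dgr_smul_le h0' _ _).trans ?_
          change dg w (g ^ i) ≤ _
          rw [hpow]
          have : (i : ℝ) ≤ ((R.natDegree - 1 : ℕ) : ℝ) := by
            exact_mod_cast (by omega : i ≤ R.natDegree - 1)
          exact mul_le_mul_of_nonneg_right this hg.le
        · have : ((R.natDegree - 1 : ℕ) : ℝ) < (R.natDegree : ℝ) := by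
            exact_mod_cast (by omega : R.natDegree - 1 < R.natDegree)
          exact mul_lt_mul_of_pos_right this hg
      rw [← hlead] at h2
      exact (dgr_add_right h0' h2).trans hlead

end

open Classical in
theorem deg (K : Type*) [Field K] {n : ℕ} (w : Fin n → ℝ) (hw : Gen w) : DegFacts K w := by
  have h0 : ∀ u : Wd n, 0 ≤ wt w u := wt_nonneg hw.pos
  have hone : dg w (1 : A K n) = 0 := by
    refine le_antisymm (dgr_le le_rfl fun u hu => ?_) (dgr_nonneg h0 _)
    rw [coeff_one] at hu
    by_cases h : u = 1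
    · rw [h, wt_one]
    · rw [if_neg h] at hu
      exact absurd rfl hu
  have hmul : ∀ f g : A K n, f ≠ 0 → g ≠ 0 → dg w (f * g) = dg w f + dg w g :=
    fun f g hf hg => dgr_mul (wt_mul w) hf hg
  have hpow : ∀ (f : A K n) (k : ℕ), dg w (f ^ k) = k * dg w f := by
    intro f k
    by_cases hf : f = 0
    · subst hf
      have hz : dg w (0 : A K n) = 0 := dgr_zero
      rcases Nat.eq_zero_or_pos k with h | h
      · rw [h, pow_zero, hone, Nat.cast_zero, zero_mul]
      · rw [zero_pow h.ne', hz, mul_zero]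
    · induction k with
      | zero => rw [pow_zero, hone, Nat.cast_zero, zero_mul]
      | succ k ih =>
        rw [pow_succ, hmul _ _ (pow_ne_zero _ hf) hf, ih]
        push_cast
        ring
  refine
  { nn := fun f => dgr_nonneg h0 f
    zero := dgr_zero
    const := fun c => le_antisymm ((dgr_smul_le h0 c 1).trans hone.le) (dgr_nonneg h0 _)
    of_zero := ?_
    xx' := ?_
    neg := fun f => dgr_neg f
    sub_comm := fun f g => dgr_sub_comm f g
    add_le := fun f g => dgr_add_le h0 f g
    sub_le := fun f g => dgr_sub_le h0 f g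
    add_right := fun f g h => dgr_add_right h0 h
    add_left := fun f g h => dgr_add_left h0 h
    sub_left := fun f g h => dgr_sub_left h0 h
    sub_right := fun f g h => dgr_sub_right h0 h
    mul := hmul
    mul_le := ?_
    pow := hpow
    smul := fun c f hc => dgr_smul hc f
    smul_le := fun c f => dgr_smul_le h0 c f
    sum_le := fun ι s f r hr h => dgr_sum_le h0 s f r hr h
    val := ?_
    fin := fin_wt hw.pos
    minim := ?_
    dom := fun f g h => mul_eq_zero.1 h
    poly := fun g R hg => poly_lem hw.pos g R hg (hpow g)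
    polyc := ?_ }
  · intro f hf
    refine ⟨f.coeff 1, ?_⟩
    apply ext'
    intro u
    rw [coeff_smul, coeff_one]
    by_cases h : u = 1
    · rw [h, if_pos rfl, mul_one]
    · rw [if_neg h, mul_zero]
      by_contra h2
      have h3 : wt w u ≤ dg w f := le_dgr' h2
      rw [hf] at h3
      exact h (wt_eq_zero hw.pos (le_antisymm h3 (h0 u)))
  · intro i
    have h1 : ∀ u : Wd n, (xx i : A K n).coeff u = if FreeMonoid.of i = u then 1 else 0 := by
      intro u
      unfold xx
      rw [MonoidAlgebra.coeff_single_apply]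
    refine le_antisymm (dgr_le (hw.pos i).le fun u hu => ?_) ?_
    · rw [h1] at hu
      by_cases h : FreeMonoid.of i = u
      · rw [← h, wt_of]
      · rw [if_neg h] at hu
        exact absurd rfl hu
    · rw [← wt_of w i]
      apply le_dgr'
      rw [h1, if_pos rfl]
      exact one_ne_zero
  · intro f g
    have hf0 : 0 ≤ dg w f := dgr_nonneg h0 f
    have hg0 : 0 ≤ dg w g := dgr_nonneg h0 g
    by_cases hf : f = 0
    · rw [hf, zero_mul]
      have hz : dg w (0 : A K n) = 0 := dgr_zero
      rw [hz]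
      linarith
    · by_cases hg : g = 0
      · rw [hg, mul_zero]
        have hz : dg w (0 : A K n) = 0 := dgr_zero
        rw [hz]
        linarith
      · exact (hmul f g hf hg).le
  · intro f
    by_cases hf : f = 0
    · refine ⟨1, ?_⟩
      rw [hf, wt_one]
      exact dgr_zero
    · obtain ⟨u, -, h⟩ := exists_dgr (ω := wt w) hf
      exact ⟨u, h⟩
  · intro s hs
    obtain ⟨f0, hf0⟩ := hs
    have hval : ∀ f : A K n, ∃ u : Wd n, dg w f = wt w u := by
      intro f
      by_cases hf : f = 0
      · refine ⟨1, ?_⟩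
        rw [hf, wt_one]
        exact dgr_zero
      · obtain ⟨u, -, h⟩ := exists_dgr (ω := wt w) hf
        exact ⟨u, h⟩
    have h1 : ((dg w) '' {f : A K n | f ∈ s ∧ dg w f ≤ dg w f0}).Finite := by
      refine (fin_wt hw.pos (dg w f0)).subset ?_
      rintro x ⟨f, ⟨-, h2⟩, rfl⟩
      exact ⟨h2, hval f⟩
    have h2 : ((dg w) '' {f : A K n | f ∈ s ∧ dg w f ≤ dg w f0}).Nonempty :=
      ⟨dg w f0, f0, ⟨hf0, le_rfl⟩, rfl⟩
    obtain ⟨x, ⟨f, ⟨hf, hfle⟩, rfl⟩, hx⟩ := Set.exists_min_image _ id h1 h2
    refine ⟨f, hf, fun g hg => ?_⟩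
    by_cases h3 : dg w g ≤ dg w f0
    · exact hx (dg w g) ⟨g, ⟨hg, h3⟩, rfl⟩
    · exact hfle.trans (not_le.1 h3).le
  · intro g R hR
    refine ⟨R.coeff 0, ?_⟩
    rw [Polynomial.eq_C_of_natDegree_eq_zero hR, Polynomial.aeval_C, Polynomial.coeff_C_zero,
      Algebra.algebraMap_eq_smul_one]

end Pool.Agent.Lib.MP_e1f7e2_al.FA.H47
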