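import Pool.Agent.Lib.MP_e1f7e2_al.FA.H47.Gr

/-!
# DEGB
-/

set_option autoImplicit false
set_option linter.all false

open Finset MulOpposite

namespace Pool.Agent.Lib.MP_e1f7e2_al.FA.H47

open Gr

section

variable {K : Type*} [Field K] {n : ℕ} {w : Fin n → ℝ}

lemma evl_single {R : Type*} [Ring R] [Algebra K R] (F : Fin n → R) (u : Wd n) (c : K) :
    evl F (MonoidAlgebra.single u c) = c • FreeMonoid.lift F u := by
  unfold evl
  rw [MonoidAlgebra.lift_single]

lemma inl_single (u : Wd n) (c : K) :
    inl (MonoidAlgebra.single u c : A K n) = MonoidAlgebra.single (u, 1) c := by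
  unfold inl
  rw [evl_single]
  have h : FreeMonoid.lift (fun i => (MonoidAlgebra.single (FreeMonoid.of i, 1) 1 : A2 K n)) u =
      MonoidAlgebra.single (u, 1) 1 := by
    induction u using FreeMonoid.inductionOn' with
    | one => rw [map_one]; rfl
    | of_mul i u ih =>
      rw [map_mul, FreeMonoid.lift_eval_of, ih, MonoidAlgebra.single_mul_single, mul_one,
        Prod.mk_mul_mk, mul_one]
  rw [h, MonoidAlgebra.smul_single, smul_eq_mul, mul_one]

lemma inr_single (u : Wd n) (c : K) :
    inr (MonoidAlgebra.single u c : A K n) = MonoidAlgebra.single (1, op u) c := by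
  unfold inr inrop
  rw [evl_single]
  have h : FreeMonoid.lift (fun i => op (MonoidAlgebra.single (1, op (FreeMonoid.of i)) 1 :
      A2 K n)) u = op (MonoidAlgebra.single (1, op u) 1) := by
    induction u using FreeMonoid.inductionOn' with
    | one => rw [map_one]; rfl
    | of_mul i u ih =>
      rw [map_mul, FreeMonoid.lift_eval_of, ih, ← op_mul, MonoidAlgebra.single_mul_single, mul_one,
        Prod.mk_mul_mk, mul_one, ← op_mul]
  rw [h, unop_smul, unop_op, MonoidAlgebra.smul_single, smul_eq_mul, mul_one]

lemma inr_add (f g : A K n) : inr (f + g) = inr f + inr g := by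
  unfold inr
  rw [map_add, unop_add]

lemma inr_mul (f g : A K n) : inr (f * g) = inr g * inr f := by
  unfold inr
  rw [map_mul, unop_mul]

lemma inr_smul (c : K) (f : A K n) : inr (c • f) = c • inr f := by
  unfold inr
  rw [map_smul, unop_smul]

lemma inr_one : inr (1 : A K n) = 1 := by
  unfold inr
  rw [map_one, unop_one]

lemma inr_zero : inr (0 : A K n) = 0 := by
  unfold inr
  rw [map_zero, unop_zero]

lemma coeff_zero' {G : Type*} (u : G) : (0 : MonoidAlgebra K G).coeff u = 0 := by
  rw [MonoidAlgebra.coeff_zero]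
  rfl

open Classical in
lemma coeff_inl (f : A K n) (p : Wd n × (Wd n)ᵐᵒᵖ) :
    (inl f).coeff p = if p.2 = 1 then f.coeff p.1 else 0 := by
  induction f using MonoidAlgebra.induction_linear with
  | zero => rw [map_zero, coeff_zero', coeff_zero', ite_self]
  | add f g hf hg =>
    rw [map_add, coeff_add, coeff_add, hf, hg]
    split_ifs
    · rfl
    · rw [add_zero]
  | single u c =>
    obtain ⟨a, b⟩ := p
    rw [inl_single, MonoidAlgebra.coeff_single_apply, MonoidAlgebra.coeff_single_apply]
    simp only [Prod.mk.injEq]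
    by_cases h1 : b = 1
    · subst h1
      simp
    · rw [if_neg (fun h => h1 h.2.symm), if_neg h1]

open Classical in
lemma coeff_inr (f : A K n) (p : Wd n × (Wd n)ᵐᵒᵖ) :
    (inr f).coeff p = if p.1 = 1 then f.coeff p.2.unop else 0 := by
  induction f using MonoidAlgebra.induction_linear with
  | zero => rw [inr_zero, coeff_zero', coeff_zero', ite_self]
  | add f g hf hg =>
    rw [inr_add, coeff_add, coeff_add, hf, hg]
    split_ifs
    · rfl
    · rw [add_zero]
  | single u c =>
    obtain ⟨a, b⟩ := p
    rw [inr_single, MonoidAlgebra.coeff_single_apply, MonoidAlgebra.coeff_single_apply]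
    simp only [Prod.mk.injEq]
    by_cases h1 : a = 1
    · subst h1
      have h2 : op u = b ↔ u = b.unop := by
        constructor
        · rintro rfl
          rfl
        · rintro rfl
          rfl
      simp [h2]
    · rw [if_neg (fun h => h1 h.1.symm), if_neg h1]

lemma tn_single (u v : Wd n) (c d : K) : tn (MonoidAlgebra.single u c : A K n)
    (MonoidAlgebra.single v d) = MonoidAlgebra.single (u, op v) (c * d) := by
  unfold tn
  rw [inl_single, inr_single, MonoidAlgebra.single_mul_single, Prod.mk_mul_mk, mul_one, one_mul]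

lemma inl_inr_comm (f g : A K n) : inl f * inr g = inr g * inl f := by
  induction f using MonoidAlgebra.induction_linear with
  | zero => rw [map_zero, zero_mul, mul_zero]
  | add f f' hf hf' => rw [map_add, add_mul, mul_add, hf, hf']
  | single u c =>
    induction g using MonoidAlgebra.induction_linear with
    | zero => rw [inr_zero, zero_mul, mul_zero]
    | add g g' hg hg' => rw [inr_add, mul_add, add_mul, hg, hg']
    | single v d =>
      rw [inl_single, inr_single, MonoidAlgebra.single_mul_single,
        MonoidAlgebra.single_mul_single, Prod.mk_mul_mk, Prod.mk_mul_mk, mul_one, one_mul,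
        one_mul, mul_one, mul_comm]

lemma tn_zero_left (g : A K n) : tn 0 g = 0 := by
  unfold tn
  rw [map_zero, zero_mul]

lemma tn_zero_right (g : A K n) : tn g 0 = 0 := by
  unfold tn
  rw [inr_zero, mul_zero]

lemma tn_add_left (f f' g : A K n) : tn (f + f') g = tn f g + tn f' g := by
  unfold tn
  rw [map_add, add_mul]

lemma tn_add_right (f g g' : A K n) : tn f (g + g') = tn f g + tn f g' := by
  unfold tn
  rw [inr_add, mul_add]

lemma coeff_tn (f g : A K n) (u v : Wd n) :
    (tn f g).coeff (u, op v) = f.coeff u * g.coeff v := by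
  classical
  induction f using MonoidAlgebra.induction_linear with
  | zero => rw [tn_zero_left, coeff_zero', coeff_zero', zero_mul]
  | add f f' hf hf' => rw [tn_add_left, coeff_add, coeff_add, hf, hf', add_mul]
  | single a c =>
    induction g using MonoidAlgebra.induction_linear with
    | zero => rw [tn_zero_right, coeff_zero', coeff_zero', mul_zero]
    | add g g' hg hg' => rw [tn_add_right, coeff_add, coeff_add, hg, hg', mul_add]
    | single b d =>
      rw [tn_single, MonoidAlgebra.coeff_single_apply, MonoidAlgebra.coeff_single_apply,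
        MonoidAlgebra.coeff_single_apply]
      simp only [Prod.mk.injEq, op_inj]
      by_cases h1 : a = u
      · by_cases h2 : b = v
        · simp [h1, h2]
        · simp [h1, h2]
      · simp [h1]

lemma tn_mul (f g f' g' : A K n) : tn f g * tn f' g' = tn (f * f') (g' * g) := by
  unfold tn
  rw [map_mul, inr_mul]
  calc inl f * inr g * (inl f' * inr g') = inl f * (inr g * inl f') * inr g' := by
        simp only [mul_assoc]
    _ = inl f * (inl f' * inr g) * inr g' := by rw [inl_inr_comm f' g]
    _ = inl f * inl f' * (inr g * inr g') := by simp only [mul_assoc]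

lemma dg2_inl (f : A K n) : dg2 w (inl f) = dg w f := by
  classical
  by_cases hf : f = 0
  · subst hf
    rw [map_zero]
    have h1 : dg2 w (0 : A2 K n) = 0 := dgr_zero
    have h2 : dg w (0 : A K n) = 0 := dgr_zero
    rw [h1, h2]
  · obtain ⟨u, hu, he⟩ := exists_dgr (ω := wt w) hf
    have h1 : (inl f).coeff (u, 1) ≠ 0 := by
      rw [coeff_inl, if_pos rfl]
      exact hu
    have hne : inl f ≠ 0 := by
      intro h
      rw [h, coeff_zero'] at h1
      exact h1 rfl
    have h2 : wt2 w (u, 1) = wt w u := by
      unfold wt2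
      change wt w u + wt w 1 = wt w u
      rw [wt_one, add_zero]
    refine le_antisymm ?_ ?_
    · obtain ⟨p, hp, hpe⟩ := exists_dgr (ω := wt2 w) hne
      rw [coeff_inl] at hp
      by_cases h3 : p.2 = 1
      · rw [if_pos h3] at hp
        have h4 : wt2 w p = wt w p.1 := by
          unfold wt2
          rw [h3]
          change wt w p.1 + wt w 1 = wt w p.1
          rw [wt_one, add_zero]
        unfold dg2
        rw [hpe, h4]
        exact le_dgr' hp
      · rw [if_neg h3] at hp
        exact absurd rfl hp
    · unfold dg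
      rw [he, ← h2]
      exact le_dgr' h1

lemma dg2_inr (f : A K n) : dg2 w (inr f) = dg w f := by
  classical
  by_cases hf : f = 0
  · subst hf
    rw [inr_zero]
    have h1 : dg2 w (0 : A2 K n) = 0 := dgr_zero
    have h2 : dg w (0 : A K n) = 0 := dgr_zero
    rw [h1, h2]
  · obtain ⟨u, hu, he⟩ := exists_dgr (ω := wt w) hf
    have h1 : (inr f).coeff (1, op u) ≠ 0 := by
      rw [coeff_inr, if_pos rfl]
      exact hu
    have hne : inr f ≠ 0 := by
      intro h
      rw [h, coeff_zero'] at h1
      exact h1 rfl
    have h2 : wt2 w (1, op u) = wt w u := by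
      unfold wt2
      change wt w 1 + wt w u = wt w u
      rw [wt_one, zero_add]
    refine le_antisymm ?_ ?_
    · obtain ⟨p, hp, hpe⟩ := exists_dgr (ω := wt2 w) hne
      rw [coeff_inr] at hp
      by_cases h3 : p.1 = 1
      · rw [if_pos h3] at hp
        have h4 : wt2 w p = wt w p.2.unop := by
          unfold wt2
          rw [h3, wt_one, zero_add]
        unfold dg2
        rw [hpe, h4]
        exact le_dgr' hp
      · rw [if_neg h3] at hp
        exact absurd rfl hp
    · unfold dg
      rw [he, ← h2]
      exact le_dgr' h1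

lemma inl_inj {f : A K n} (h : inl f = 0) : f = 0 := by
  classical
  apply ext'
  intro u
  have h1 := coeff_inl f (u, 1)
  rw [h, coeff_zero', if_pos rfl] at h1
  rw [coeff_zero']
  exact h1.symm

lemma inr_inj {f : A K n} (h : inr f = 0) : f = 0 := by
  classical
  apply ext'
  intro u
  have h1 := coeff_inr f (1, op u)
  rw [h, coeff_zero', if_pos rfl] at h1
  rw [coeff_zero']
  exact h1.symm

lemma unop_eq_one_iff' (v : Wd n) : op v = 1 ↔ v = 1 := op_eq_one_iff v

lemma of_zero' (hw : ∀ i, 0 < w i) {f : A K n} (hf : dg w f = 0) : ∃ c : K, f = c • 1 := by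
  classical
  refine ⟨f.coeff 1, ?_⟩
  apply ext'
  intro u
  rw [coeff_smul]
  by_cases h : u = 1
  · rw [h, MonoidAlgebra.coeff_one_one, mul_one]
  · have h1 : (1 : A K n).coeff u = 0 := by
      rw [MonoidAlgebra.one_def, MonoidAlgebra.coeff_single_apply, if_neg (fun h' => h h'.symm)]
    rw [h1, mul_zero]
    by_contra h2
    have h3 : wt w u ≤ dg w f := le_dgr' h2
    rw [hf] at h3
    exact h (wt_eq_zero hw (le_antisymm h3 (wt_nonneg hw u)))

lemma of_zero2 (hw : ∀ i, 0 < w i) {f : A2 K n} (hf : dg2 w f = 0) : ∃ c : K, f = c • 1 := by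
  classical
  refine ⟨f.coeff 1, ?_⟩
  apply ext'
  intro u
  rw [coeff_smul]
  by_cases h : u = 1
  · rw [h, MonoidAlgebra.coeff_one_one, mul_one]
  · have h1 : (1 : A2 K n).coeff u = 0 := by
      rw [MonoidAlgebra.one_def, MonoidAlgebra.coeff_single_apply, if_neg (fun h' => h h'.symm)]
    rw [h1, mul_zero]
    by_contra h2
    have h3 : wt2 w u ≤ dg2 w f := le_dgr' h2
    rw [hf] at h3
    exact h (wt2_eq_zero hw (le_antisymm h3 (wt2_nonneg hw u)))

lemma dl_const (c : K) : dl (c • (1 : A K n)) = 0 := by
  unfold dl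
  rw [map_smul, map_one, inr_smul, inr_one, sub_self]

lemma dg2_one : dg2 w (1 : A2 K n) = 0 := by
  have h : (1 : A2 K n) = inl 1 := (map_one inl).symm
  rw [h, dg2_inl]
  classical
  have h2 : ∃ u, (1 : A K n).coeff u ≠ 0 ∧ dgr (wt w) (1 : A K n) = wt w u :=
    exists_dgr one_ne_zero
  obtain ⟨u, hu, he⟩ := h2
  rw [MonoidAlgebra.one_def, MonoidAlgebra.coeff_single_apply] at hu
  by_cases h3 : 1 = u
  · unfold dg
    rw [he, ← h3, wt_one]
  · rw [if_neg h3] at hu
    exact absurd rfl hu

lemma coeff_dl_left (f : A K n) {u : Wd n} (hu : u ≠ 1) : (dl f).coeff (u, 1) = f.coeff u := by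
  classical
  unfold dl
  rw [coeff_sub, coeff_inl, coeff_inr, if_pos rfl, if_neg hu, sub_zero]

lemma dg2_dl (hw : ∀ i, 0 < w i) (f : A K n) : dg2 w (dl f) = dg w f := by
  have h0 : ∀ u : Wd n, 0 ≤ wt w u := wt_nonneg hw
  have h02 : ∀ u : Wd n × (Wd n)ᵐᵒᵖ, 0 ≤ wt2 w u := wt2_nonneg hw
  have hz2 : dg2 w (0 : A2 K n) = 0 := dgr_zero
  rcases (dgr_nonneg h0 f).eq_or_lt with h | h
  · obtain ⟨c, hc⟩ := of_zero' hw h.symm
    have h' : dg w f = 0 := h.symm
    rw [h', hc, dl_const, hz2]
  · refine le_antisymm ?_ ?_
    · unfold dl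
      refine (dgr_sub_le h02 _ _).trans (max_le ?_ ?_)
      · exact (dg2_inl f).le
      · exact (dg2_inr f).le
    · have hf : f ≠ 0 := by
        rintro rfl
        rw [dgr_zero] at h
        exact lt_irrefl _ h
      obtain ⟨u, hu, he⟩ := exists_dgr (ω := wt w) hf
      have hu1 : u ≠ 1 := by
        rintro rfl
        rw [he, wt_one] at h
        exact lt_irrefl _ h
      have h2 : wt2 w (u, 1) = wt w u := by
        unfold wt2
        change wt w u + wt w 1 = wt w u
        rw [wt_one, add_zero]
      unfold dg
      rw [he, ← h2]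
      apply le_dgr'
      rw [coeff_dl_left f hu1]
      exact hu

end

theorem degb (K : Type*) [Field K] {n : ℕ} (w : Fin n → ℝ) (hw : Gen w) : DegbFacts K w := by
  have h0 : ∀ u : Wd n, 0 ≤ wt w u := wt_nonneg hw.pos
  have h02 : ∀ u : Wd n × (Wd n)ᵐᵒᵖ, 0 ≤ wt2 w u := wt2_nonneg hw.pos
  have hmul : ∀ f g : A2 K n, f ≠ 0 → g ≠ 0 → dg2 w (f * g) = dg2 w f + dg2 w g :=
    fun f g hf hg => dgr_mul (wt2_mul w) hf hg
  refine
  { nn := fun f => dgr_nonneg h02 f
    zero := dgr_zero
    const := fun c => le_antisymm ((dgr_smul_le h02 c 1).trans dg2_one.le) (dgr_nonneg h02 _)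
    of_zero := fun f hf => of_zero2 hw.pos hf
    neg := fun f => dgr_neg f
    add_le := fun f g => dgr_add_le h02 f g
    add_right := fun f g h => dgr_add_right h02 h
    add_left := fun f g h => dgr_add_left h02 h
    mul := hmul
    smul := fun c f hc => dgr_smul hc f
    dom := fun f g h => mul_eq_zero.1 h
    inl' := fun f => dg2_inl f
    inr' := fun f => dg2_inr f
    inlinj := fun f h => inl_inj h
    inrinj := fun f h => inr_inj h
    tn' := ?_
    comm := inl_inr_comm
    inrmul := inr_mul
    inradd := inr_add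
    inrsmul := inr_smul
    inrone := inr_one
    tnmul := tn_mul
    dl' := fun f => dg2_dl hw.pos f
    dl0 := ?_
    dlc := dl_const
    cf := coeff_tn
    two := ?_ }
  · intro f g hf hg
    unfold tn
    rw [hmul _ _ (fun h => hf (inl_inj h)) (fun h => hg (inr_inj h)), dg2_inl, dg2_inr]
  · intro f h
    apply of_zero' hw.pos
    rw [← dg2_dl hw.pos, h]
    exact dgr_zero
  · intro u v
    classical
    rcases lt_trichotomy (dg w u) (dg w v) with h | h | h
    · rw [max_eq_right h.le, ← dg2_inl (w := w) v]
      refine dgr_add_right h02 ?_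
      change dg2 w (inr u) < dg2 w (inl v)
      rw [dg2_inl, dg2_inr]
      exact h
    · rw [h, max_self]
      refine le_antisymm ?_ ?_
      · refine (dgr_add_le h02 _ _).trans (max_le ?_ ?_)
        · change dg2 w (inr u) ≤ _
          rw [dg2_inr, h]
        · change dg2 w (inl v) ≤ _
          rw [dg2_inl]
      · rcases (dgr_nonneg h0 v).eq_or_lt with h1 | h1
        · change dgr (wt w) v ≤ _
          rw [← h1]
          exact dgr_nonneg h02 _
        · have hv : v ≠ 0 := by
            rintro rfl
            rw [dgr_zero] at h1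
            exact lt_irrefl _ h1
          obtain ⟨a, ha, he⟩ := exists_dgr (ω := wt w) hv
          have ha1 : a ≠ 1 := by
            rintro rfl
            rw [he, wt_one] at h1
            exact lt_irrefl _ h1
          have h2 : wt2 w (a, 1) = wt w a := by
            unfold wt2
            change wt w a + wt w 1 = wt w a
            rw [wt_one, add_zero]
          unfold dg
          rw [he, ← h2]
          apply le_dgr'
          rw [coeff_add, coeff_inl, coeff_inr, if_pos rfl, if_neg ha1, zero_add]
          exact ha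
    · rw [max_eq_left h.le, ← dg2_inr (w := w) u]
      refine dgr_add_left h02 ?_
      change dg2 w (inl v) < dg2 w (inr u)
      rw [dg2_inl, dg2_inr]
      exact h

end Pool.Agent.Lib.MP_e1f7e2_al.FA.H47
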