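import Pool.Agent.Lib.MP_e1f7e2_al.FA.Iface

/-!
# Weighted degrees in monoid algebras (for DEG, DEGB, TOP)
-/

set_option autoImplicit false
set_option linter.all false

open Finset

namespace Pool.Agent.Lib.MP_e1f7e2_al.FA.H47.Gr

variable {K : Type*} [Field K] {G : Type*}

section add
variable {ω : G → ℝ}

lemma dgr_of_ne {f : MonoidAlgebra K G} (h : f.coeff.support.Nonempty) :
    dgr ω f = f.coeff.support.sup' h ω := by
  unfold dgr
  rw [dif_pos h]

lemma supp_ne {f : MonoidAlgebra K G} (hf : f ≠ 0) : f.coeff.support.Nonempty := by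
  rw [Finsupp.support_nonempty_iff]
  intro h
  exact hf (MonoidAlgebra.coeff_eq_zero.1 h)

@[simp] lemma dgr_zero : dgr ω (0 : MonoidAlgebra K G) = 0 := by
  unfold dgr
  rw [dif_neg]
  rw [MonoidAlgebra.coeff_zero, Finsupp.support_zero]
  exact Finset.not_nonempty_empty

lemma le_dgr {f : MonoidAlgebra K G} {u : G} (hu : u ∈ f.coeff.support) : ω u ≤ dgr ω f := by
  rw [dgr_of_ne ⟨u, hu⟩]
  exact Finset.le_sup' ω hu

lemma le_dgr' {f : MonoidAlgebra K G} {u : G} (hu : f.coeff u ≠ 0) : ω u ≤ dgr ω f :=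
  le_dgr (Finsupp.mem_support_iff.2 hu)

lemma exists_dgr {f : MonoidAlgebra K G} (hf : f ≠ 0) : ∃ u, f.coeff u ≠ 0 ∧ dgr ω f = ω u := by
  obtain ⟨u, hu, h⟩ := Finset.exists_mem_eq_sup' (supp_ne hf) ω
  exact ⟨u, Finsupp.mem_support_iff.1 hu, by rw [dgr_of_ne (supp_ne hf), h]⟩

lemma dgr_le {f : MonoidAlgebra K G} {r : ℝ} (hr : 0 ≤ r) (h : ∀ u, f.coeff u ≠ 0 → ω u ≤ r) :
    dgr ω f ≤ r := by
  by_cases hf : f = 0
  · rw [hf, dgr_zero]
    exact hr
  · obtain ⟨u, hu, he⟩ := exists_dgr (ω := ω) hf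
    rw [he]
    exact h u hu

lemma dgr_lt {f : MonoidAlgebra K G} {r : ℝ} (hr : 0 < r) (h : ∀ u, f.coeff u ≠ 0 → ω u < r) :
    dgr ω f < r := by
  by_cases hf : f = 0
  · rw [hf, dgr_zero]
    exact hr
  · obtain ⟨u, hu, he⟩ := exists_dgr (ω := ω) hf
    rw [he]
    exact h u hu

lemma coeff_add (f g : MonoidAlgebra K G) (u : G) : (f + g).coeff u = f.coeff u + g.coeff u := by
  rw [MonoidAlgebra.coeff_add]
  rfl

lemma coeff_neg (f : MonoidAlgebra K G) (u : G) : (-f).coeff u = - f.coeff u := by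
  have h := coeff_add f (-f) u
  rw [add_neg_cancel] at h
  rw [MonoidAlgebra.coeff_zero] at h
  have h2 : (0 : K) = f.coeff u + (-f).coeff u := h
  exact (neg_eq_of_add_eq_zero_right h2.symm).symm

lemma coeff_sub (f g : MonoidAlgebra K G) (u : G) : (f - g).coeff u = f.coeff u - g.coeff u := by
  rw [sub_eq_add_neg, coeff_add, coeff_neg, sub_eq_add_neg]

lemma coeff_smul (c : K) (f : MonoidAlgebra K G) (u : G) : (c • f).coeff u = c * f.coeff u := by
  rw [MonoidAlgebra.coeff_smul]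
  rfl

lemma ext' {f g : MonoidAlgebra K G} (h : ∀ u, f.coeff u = g.coeff u) : f = g := by
  apply MonoidAlgebra.ext
  exact Finsupp.ext h

lemma dgr_congr {f g : MonoidAlgebra K G} (h : ∀ u, f.coeff u ≠ 0 ↔ g.coeff u ≠ 0) :
    dgr ω f = dgr ω g := by
  by_cases hf : f = 0
  · have hg : g = 0 := by
      apply ext'
      intro u
      by_contra h2
      have h3 := (h u).2 h2
      rw [hf] at h3
      exact h3 (by rw [MonoidAlgebra.coeff_zero]; rfl)
    rw [hf, hg]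
  · have hg : g ≠ 0 := by
      rintro rfl
      obtain ⟨u, hu, -⟩ := exists_dgr (ω := ω) hf
      exact (h u).1 hu (by rw [MonoidAlgebra.coeff_zero]; rfl)
    obtain ⟨u, hu, h1⟩ := exists_dgr (ω := ω) hf
    obtain ⟨v, hv, h2⟩ := exists_dgr (ω := ω) hg
    refine le_antisymm ?_ ?_
    · rw [h1]
      exact le_dgr' ((h u).1 hu)
    · rw [h2]
      exact le_dgr' ((h v).2 hv)

lemma dgr_neg (f : MonoidAlgebra K G) : dgr ω (-f) = dgr ω f :=
  dgr_congr fun u => by rw [coeff_neg, neg_ne_zero]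

lemma dgr_smul {c : K} (hc : c ≠ 0) (f : MonoidAlgebra K G) : dgr ω (c • f) = dgr ω f :=
  dgr_congr fun u => by rw [coeff_smul, mul_ne_zero_iff]; exact ⟨fun h => h.2, fun h => ⟨hc, h⟩⟩

lemma dgr_sub_comm (f g : MonoidAlgebra K G) : dgr ω (f - g) = dgr ω (g - f) := by
  rw [← dgr_neg, neg_sub]

end add

section nonneg

variable {ω : G → ℝ} (h0 : ∀ u, 0 ≤ ω u)

include h0

lemma dgr_nonneg (f : MonoidAlgebra K G) : 0 ≤ dgr ω f := by
  by_cases hf : f = 0
  · rw [hf, dgr_zero]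
  · obtain ⟨u, hu, he⟩ := exists_dgr (ω := ω) hf
    rw [he]
    exact h0 u

lemma dgr_smul_le (c : K) (f : MonoidAlgebra K G) : dgr ω (c • f) ≤ dgr ω f := by
  by_cases hc : c = 0
  · rw [hc, zero_smul, dgr_zero]
    exact dgr_nonneg h0 f
  · exact (dgr_smul hc f).le

lemma dgr_add_le (f g : MonoidAlgebra K G) : dgr ω (f + g) ≤ max (dgr ω f) (dgr ω g) := by
  refine dgr_le (le_max_of_le_left (dgr_nonneg h0 f)) fun u hu => ?_
  rw [coeff_add] at hu
  by_cases h1 : f.coeff u = 0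
  · rw [h1, zero_add] at hu
    exact le_max_of_le_right (le_dgr' hu)
  · exact le_max_of_le_left (le_dgr' h1)

lemma dgr_sub_le (f g : MonoidAlgebra K G) : dgr ω (f - g) ≤ max (dgr ω f) (dgr ω g) := by
  rw [sub_eq_add_neg, ← dgr_neg (ω := ω) g]
  exact dgr_add_le h0 _ _

lemma dgr_add_right {f g : MonoidAlgebra K G} (h : dgr ω f < dgr ω g) :
    dgr ω (f + g) = dgr ω g := by
  have hg : g ≠ 0 := by
    rintro rfl
    rw [dgr_zero] at h
    exact absurd h (not_lt.2 (dgr_nonneg h0 f))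
  refine le_antisymm ((dgr_add_le h0 f g).trans (max_le h.le le_rfl)) ?_
  obtain ⟨u, hu, he⟩ := exists_dgr (ω := ω) hg
  rw [he]
  refine le_dgr' ?_
  have h1 : f.coeff u = 0 := by
    by_contra h2
    exact absurd (le_dgr' (ω := ω) h2) (not_le.2 (by rw [← he]; exact h))
  rw [coeff_add, h1, zero_add]
  exact hu

lemma dgr_add_left {f g : MonoidAlgebra K G} (h : dgr ω g < dgr ω f) :
    dgr ω (f + g) = dgr ω f := by
  rw [add_comm]
  exact dgr_add_right h0 h

lemma dgr_sub_left {f g : MonoidAlgebra K G} (h : dgr ω g < dgr ω f) :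
    dgr ω (f - g) = dgr ω f := by
  rw [sub_eq_add_neg]
  exact dgr_add_left h0 (by rw [dgr_neg]; exact h)

lemma dgr_sub_right {f g : MonoidAlgebra K G} (h : dgr ω f < dgr ω g) :
    dgr ω (f - g) = dgr ω g := by
  rw [dgr_sub_comm]
  exact dgr_sub_left h0 h

lemma dgr_sum_le {ι : Type*} (s : Finset ι) (f : ι → MonoidAlgebra K G) (r : ℝ) (hr : 0 ≤ r)
    (h : ∀ i ∈ s, dgr ω (f i) ≤ r) : dgr ω (∑ i ∈ s, f i) ≤ r := by
  classical
  induction s using Finset.induction_on with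
  | empty =>
    rw [Finset.sum_empty, dgr_zero]
    exact hr
  | insert a s ha ih =>
    rw [Finset.sum_insert ha]
    refine (dgr_add_le h0 _ _).trans (max_le (h a (Finset.mem_insert_self _ _)) (ih fun i hi => ?_))
    exact h i (Finset.mem_insert_of_mem hi)

end nonneg

/-! ### components -/

section cmp

variable {ω : G → ℝ}

lemma coeff_cmp (r : ℝ) (f : MonoidAlgebra K G) (u : G) :
    (cmp ω r f).coeff u = if ω u = r then f.coeff u else 0 := by
  classical
  unfold cmp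
  rw [MonoidAlgebra.coeff_ofCoeff, Finsupp.filter_apply]

lemma cmp_add (r : ℝ) (f g : MonoidAlgebra K G) : cmp ω r (f + g) = cmp ω r f + cmp ω r g := by
  apply ext'
  intro u
  rw [coeff_add, coeff_cmp, coeff_cmp, coeff_cmp, coeff_add]
  split_ifs
  · rfl
  · rw [add_zero]

lemma cmp_sub (r : ℝ) (f g : MonoidAlgebra K G) : cmp ω r (f - g) = cmp ω r f - cmp ω r g := by
  apply ext'
  intro u
  rw [coeff_sub, coeff_cmp, coeff_cmp, coeff_cmp, coeff_sub]
  split_ifs
  · rfl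
  · rw [sub_zero]

lemma cmp_smul (r : ℝ) (c : K) (f : MonoidAlgebra K G) : cmp ω r (c • f) = c • cmp ω r f := by
  apply ext'
  intro u
  rw [coeff_smul, coeff_cmp, coeff_cmp, coeff_smul]
  split_ifs
  · rfl
  · rw [mul_zero]

/-- all words of weight `r` -/
def Hg (ω : G → ℝ) (r : ℝ) (f : MonoidAlgebra K G) : Prop := ∀ u, f.coeff u ≠ 0 → ω u = r

lemma cmp_hg (r : ℝ) (f : MonoidAlgebra K G) : Hg ω r (cmp ω r f) := by
  intro u hu
  rw [coeff_cmp] at hu
  by_contra h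
  rw [if_neg h] at hu
  exact hu rfl

lemma cmp_self {r : ℝ} {f : MonoidAlgebra K G} (h : Hg ω r f) : cmp ω r f = f := by
  apply ext'
  intro u
  rw [coeff_cmp]
  split_ifs with h1
  · rfl
  · by_contra h2
    exact h1 (h u (Ne.symm h2))

lemma cmp_zero_of_lt {r : ℝ} {f : MonoidAlgebra K G} (h : ∀ u, f.coeff u ≠ 0 → ω u < r) :
    cmp ω r f = 0 := by
  apply ext'
  intro u
  rw [coeff_cmp, MonoidAlgebra.coeff_zero]
  change _ = (0 : K)
  split_ifs with h1
  · by_contra h2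
    exact absurd h1 (h u h2).ne
  · rfl

lemma hg_dgr {r : ℝ} {f : MonoidAlgebra K G} (h : Hg ω r f) (hf : f ≠ 0) : dgr ω f = r := by
  obtain ⟨u, hu, he⟩ := exists_dgr (ω := ω) hf
  rw [he]
  exact h u hu

lemma top_ne {f : MonoidAlgebra K G} (hf : f ≠ 0) : cmp ω (dgr ω f) f ≠ 0 := by
  intro h
  obtain ⟨u, hu, he⟩ := exists_dgr (ω := ω) hf
  have h1 := coeff_cmp (ω := ω) (dgr ω f) f u
  rw [h, if_pos he.symm, MonoidAlgebra.coeff_zero] at h1
  exact hu h1.symm

lemma dgr_top (f : MonoidAlgebra K G) : dgr ω (cmp ω (dgr ω f) f) = dgr ω f := by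
  by_cases hf : f = 0
  · subst hf
    rw [dgr_zero]
    have : cmp ω 0 (0 : MonoidAlgebra K G) = 0 := by
      apply ext'
      intro u
      rw [coeff_cmp]
      split_ifs
      · rfl
      · rfl
    rw [this, dgr_zero]
  · exact hg_dgr (cmp_hg _ _) (top_ne hf)

lemma sub_top_lt {f : MonoidAlgebra K G} (hf : 0 < dgr ω f) :
    dgr ω (f - cmp ω (dgr ω f) f) < dgr ω f := by
  refine dgr_lt hf fun u hu => ?_
  rw [coeff_sub, coeff_cmp] at hu
  by_cases h : ω u = dgr ω f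
  · rw [if_pos h, sub_self] at hu
    exact absurd rfl hu
  · rw [if_neg h, sub_zero] at hu
    exact lt_of_le_of_ne (le_dgr' hu) h

end cmp

/-! ### products -/

section mul

variable [Monoid G] {ω : G → ℝ} (hm : ∀ a b, ω (a * b) = ω a + ω b)

include hm

lemma supp_mul {f g : MonoidAlgebra K G} {u : G} (hu : (f * g).coeff u ≠ 0) :
    ∃ a b, f.coeff a ≠ 0 ∧ g.coeff b ≠ 0 ∧ a * b = u := by
  classical
  rw [MonoidAlgebra.coeff_mul] at hu
  unfold Finsupp.sum at hu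
  obtain ⟨a, ha, h1⟩ := Finset.exists_ne_zero_of_sum_ne_zero hu
  obtain ⟨b, hb, h2⟩ := Finset.exists_ne_zero_of_sum_ne_zero h1
  refine ⟨a, b, Finsupp.mem_support_iff.1 ha, Finsupp.mem_support_iff.1 hb, ?_⟩
  by_contra h3
  change (if a * b = u then f.coeff a * g.coeff b else 0) ≠ 0 at h2
  rw [if_neg h3] at h2
  exact h2 rfl

lemma hg_mul {r s : ℝ} {f g : MonoidAlgebra K G} (hf : Hg ω r f) (hg : Hg ω s g) :
    Hg ω (r + s) (f * g) := by
  intro u hu
  obtain ⟨a, b, ha, hb, rfl⟩ := supp_mul hm hu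
  rw [hm, hf a ha, hg b hb]

lemma cmp_mul_top {r s : ℝ} {f g : MonoidAlgebra K G} (hf : ∀ u, f.coeff u ≠ 0 → ω u ≤ r)
    (hg : ∀ u, g.coeff u ≠ 0 → ω u ≤ s) :
    cmp ω (r + s) (f * g) = cmp ω r f * cmp ω s g := by
  have hf' : ∀ u, (f - cmp ω r f).coeff u ≠ 0 → ω u < r := by
    intro u hu
    rw [coeff_sub, coeff_cmp] at hu
    by_cases h : ω u = r
    · rw [if_pos h, sub_self] at hu
      exact absurd rfl hu
    · rw [if_neg h, sub_zero] at hu
      exact lt_of_le_of_ne (hf u hu) h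
  have hg' : ∀ u, (g - cmp ω s g).coeff u ≠ 0 → ω u < s := by
    intro u hu
    rw [coeff_sub, coeff_cmp] at hu
    by_cases h : ω u = s
    · rw [if_pos h, sub_self] at hu
      exact absurd rfl hu
    · rw [if_neg h, sub_zero] at hu
      exact lt_of_le_of_ne (hg u hu) h
  have h1 : f * g = cmp ω r f * cmp ω s g + (f - cmp ω r f) * g + cmp ω r f * (g - cmp ω s g) := by
    noncomm_ring
  have h2 : cmp ω (r + s) ((f - cmp ω r f) * g) = 0 := by
    apply cmp_zero_of_lt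
    intro u hu
    obtain ⟨a, b, ha, hb, rfl⟩ := supp_mul hm hu
    rw [hm]
    exact add_lt_add_of_lt_of_le (hf' a ha) (hg b hb)
  have h3 : cmp ω (r + s) (cmp ω r f * (g - cmp ω s g)) = 0 := by
    apply cmp_zero_of_lt
    intro u hu
    obtain ⟨a, b, ha, hb, rfl⟩ := supp_mul hm hu
    rw [hm]
    exact add_lt_add_of_le_of_lt (cmp_hg r f a ha).le (hg' b hb)
  conv_lhs => rw [h1]
  rw [cmp_add, cmp_add, h2, h3, add_zero, add_zero]
  exact cmp_self (hg_mul hm (cmp_hg _ _) (cmp_hg _ _))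

lemma dgr_mul [NoZeroDivisors (MonoidAlgebra K G)] {f g : MonoidAlgebra K G} (hf : f ≠ 0)
    (hg : g ≠ 0) : dgr ω (f * g) = dgr ω f + dgr ω g := by
  have h1 : cmp ω (dgr ω f + dgr ω g) (f * g) = cmp ω (dgr ω f) f * cmp ω (dgr ω g) g :=
    cmp_mul_top hm (fun u hu => le_dgr' hu) (fun u hu => le_dgr' hu)
  have h2 : cmp ω (dgr ω f + dgr ω g) (f * g) ≠ 0 := by
    rw [h1]
    exact mul_ne_zero (top_ne hf) (top_ne hg)
  obtain ⟨u, hu, -⟩ := exists_dgr (ω := ω) h2
  refine le_antisymm ?_ ?_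
  · have hne : f * g ≠ 0 := mul_ne_zero hf hg
    obtain ⟨v, hv, he⟩ := exists_dgr (ω := ω) hne
    rw [he]
    obtain ⟨a, b, ha, hb, rfl⟩ := supp_mul hm hv
    rw [hm]
    exact add_le_add (le_dgr' ha) (le_dgr' hb)
  · rw [coeff_cmp] at hu
    by_cases h : ω u = dgr ω f + dgr ω g
    · rw [if_pos h] at hu
      rw [← h]
      exact le_dgr' hu
    · rw [if_neg h] at hu
      exact absurd rfl hu

lemma top_mul [NoZeroDivisors (MonoidAlgebra K G)] {f g : MonoidAlgebra K G} (hf : f ≠ 0)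
    (hg : g ≠ 0) : cmp ω (dgr ω (f * g)) (f * g) = cmp ω (dgr ω f) f * cmp ω (dgr ω g) g := by
  rw [dgr_mul hm hf hg]
  exact cmp_mul_top hm (fun u hu => le_dgr' hu) (fun u hu => le_dgr' hu)

end mul

section tops

variable {ω : G → ℝ} (h0 : ∀ u, 0 ≤ ω u)

/-- the top is determined by the condition -/
lemma uniq {f t : MonoidAlgebra K G} (hf : 0 < dgr ω f) (ht : Hg ω (dgr ω f) t)
    (hlt : dgr ω (f - t) < dgr ω f) : cmp ω (dgr ω f) f = t := by
  have h1 : cmp ω (dgr ω f) (f - t) = 0 := by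
    apply cmp_zero_of_lt
    intro u hu
    exact lt_of_le_of_lt (le_dgr' hu) hlt
  rw [cmp_sub, cmp_self ht] at h1
  exact sub_eq_zero.1 h1

lemma lt_iff {f g : MonoidAlgebra K G} (hf : 0 < dgr ω f) (he : dgr ω f = dgr ω g) :
    dgr ω (f - g) < dgr ω f ↔ cmp ω (dgr ω f) f = cmp ω (dgr ω g) g := by
  constructor
  · intro h
    have h1 : cmp ω (dgr ω f) (f - g) = 0 := by
      apply cmp_zero_of_lt
      intro u hu
      exact lt_of_le_of_lt (le_dgr' hu) h
    rw [cmp_sub] at h1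
    rw [← he]
    exact sub_eq_zero.1 h1
  · intro h
    refine dgr_lt hf fun u hu => ?_
    have h2 : ω u ≤ dgr ω f := by
      rw [coeff_sub] at hu
      by_cases h3 : f.coeff u = 0
      · rw [h3, zero_sub, neg_ne_zero] at hu
        rw [he]
        exact le_dgr' hu
      · exact le_dgr' h3
    refine lt_of_le_of_ne h2 fun h3 => ?_
    have h4 : (cmp ω (dgr ω f) f).coeff u = (cmp ω (dgr ω g) g).coeff u := by rw [h]
    rw [coeff_cmp, coeff_cmp, if_pos h3, if_pos (h3.trans he)] at h4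
    rw [coeff_sub, h4, sub_self] at hu
    exact hu rfl

end tops

/-! ### words -/

section words

variable {n : ℕ} {w : Fin n → ℝ}

lemma wt_one (w : Fin n → ℝ) : wt w 1 = 0 := by
  unfold wt
  rw [FreeMonoid.toList_one, List.map_nil, List.sum_nil]

lemma wt_mul (w : Fin n → ℝ) (a b : Wd n) : wt w (a * b) = wt w a + wt w b := by
  unfold wt
  rw [FreeMonoid.toList_mul, List.map_append, List.sum_append]

lemma wt_of (w : Fin n → ℝ) (i : Fin n) : wt w (FreeMonoid.of i) = w i := by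
  unfold wt
  rw [FreeMonoid.toList_of, List.map_cons, List.map_nil, List.sum_cons, List.sum_nil, add_zero]

lemma wt_nonneg (hw : ∀ i, 0 < w i) (u : Wd n) : 0 ≤ wt w u := by
  unfold wt
  apply List.sum_nonneg
  intro x hx
  rw [List.mem_map] at hx
  obtain ⟨i, -, rfl⟩ := hx
  exact (hw i).le

lemma wt_eq_zero (hw : ∀ i, 0 < w i) {u : Wd n} (h : wt w u = 0) : u = 1 := by
  induction u using FreeMonoid.inductionOn' with
  | one => rfl
  | of_mul i u ih =>
    rw [wt_mul, wt_of] at h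
    have h1 := wt_nonneg hw u
    have h2 := hw i
    linarith

lemma wt2_one (w : Fin n → ℝ) : wt2 w 1 = 0 := by
  unfold wt2
  change wt w 1 + wt w 1 = 0
  rw [wt_one, add_zero]

lemma wt2_mul (w : Fin n → ℝ) (a b : Wd n × (Wd n)ᵐᵒᵖ) : wt2 w (a * b) = wt2 w a + wt2 w b := by
  unfold wt2
  rw [Prod.fst_mul, Prod.snd_mul, MulOpposite.unop_mul, wt_mul, wt_mul]
  ring

lemma wt2_nonneg (hw : ∀ i, 0 < w i) (u : Wd n × (Wd n)ᵐᵒᵖ) : 0 ≤ wt2 w u :=
  add_nonneg (wt_nonneg hw _) (wt_nonneg hw _)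

lemma wt2_eq_zero (hw : ∀ i, 0 < w i) {u : Wd n × (Wd n)ᵐᵒᵖ} (h : wt2 w u = 0) : u = 1 := by
  have h1 := wt_nonneg hw u.1
  have h2 := wt_nonneg hw u.2.unop
  unfold wt2 at h
  have h3 : wt w u.1 = 0 := by linarith
  have h4 : wt w u.2.unop = 0 := by linarith
  have h5 := wt_eq_zero hw h3
  have h6 := wt_eq_zero hw h4
  ext1
  · exact h5
  · exact MulOpposite.unop_injective h6

instance inst1 : NoZeroDivisors (A K n) := inferInstance
instance inst2 : NoZeroDivisors (A2 K n) := inferInstance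

end words

end Pool.Agent.Lib.MP_e1f7e2_al.FA.H47.Gr
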