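import Pool.Agent.Lib.MP_e1f7e2_al.FA.H47.Degb

/-!
# TOP
-/

set_option autoImplicit false
set_option linter.all false

open Finset MulOpposite

namespace Pool.Agent.Lib.MP_e1f7e2_al.FA.H47

open Gr

section

variable {K : Type*} [Field K] {n : ℕ} {w : Fin n → ℝ}

lemma hom_iff (f : A K n) : Hom w f ↔ Hg (wt w) (dg w f) f := by
  unfold Hom Hg
  simp only [Finsupp.mem_support_iff]

lemma hom2_iff (f : A2 K n) : Hom2 w f ↔ Hg (wt2 w) (dg2 w f) f := by
  unfold Hom2 Hg
  simp only [Finsupp.mem_support_iff]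

lemma hg_smul {G : Type*} {ω : G → ℝ} {r : ℝ} {f : MonoidAlgebra K G} (c : K) (h : Hg ω r f) :
    Hg ω r (c • f) := by
  intro u hu
  rw [coeff_smul] at hu
  exact h u (right_ne_zero_of_mul hu)

lemma hg_add {G : Type*} {ω : G → ℝ} {r : ℝ} {f g : MonoidAlgebra K G} (hf : Hg ω r f)
    (hg : Hg ω r g) : Hg ω r (f + g) := by
  intro u hu
  rw [coeff_add] at hu
  by_cases h1 : f.coeff u = 0
  · rw [h1, zero_add] at hu
    exact hg u hu
  · exact hf u h1

lemma hg_zero {G : Type*} {ω : G → ℝ} {r : ℝ} : Hg ω r (0 : MonoidAlgebra K G) := by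
  intro u hu
  rw [coeff_zero'] at hu
  exact absurd rfl hu

lemma hg_sum {G : Type*} {ω : G → ℝ} {r : ℝ} {ι : Type*} (s : Finset ι)
    (f : ι → MonoidAlgebra K G) (h : ∀ i ∈ s, Hg ω r (f i)) : Hg ω r (∑ i ∈ s, f i) := by
  classical
  induction s using Finset.induction_on with
  | empty =>
    rw [Finset.sum_empty]
    exact hg_zero
  | insert a s ha ih =>
    rw [Finset.sum_insert ha]
    exact hg_add (h a (Finset.mem_insert_self _ _)) (ih fun i hi => h i (Finset.mem_insert_of_mem hi))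

lemma hg_one : Hg (wt w) 0 (1 : A K n) := by
  classical
  intro u hu
  rw [MonoidAlgebra.one_def, MonoidAlgebra.coeff_single_apply] at hu
  by_cases h : 1 = u
  · rw [← h, wt_one]
  · rw [if_neg h] at hu
    exact absurd rfl hu

/-- the value of a word in homogeneous elements is homogeneous -/
lemma hg_word (f g : A K n) (hf : Hg (wt w) (dg w f) f) (hg : Hg (wt w) (dg w g) g)
    (u : Wd 2) : Hg (wt w) (wt ![dg w f, dg w g] u) (FreeMonoid.lift ![f, g] u) := by
  induction u using FreeMonoid.inductionOn' with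
  | one =>
    rw [map_one, wt_one]
    exact hg_one
  | of_mul i u ih =>
    rw [map_mul, wt_mul, wt_of, FreeMonoid.lift_eval_of]
    refine hg_mul (wt_mul w) ?_ ih
    fin_cases i
    · exact hf
    · exact hg

lemma ev_eq_sum (P : A K 2) (f g : A K n) :
    ev P f g = ∑ u ∈ P.coeff.support, P.coeff u • FreeMonoid.lift ![f, g] u := by
  unfold ev
  conv_lhs => rw [← MonoidAlgebra.sum_coeff_single P]
  unfold Finsupp.sum
  rw [map_sum]
  exact Finset.sum_congr rfl fun u _ => evl_single _ _ _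

lemma hg_ev (P : A K 2) (f g : A K n) (hf : Hg (wt w) (dg w f) f) (hg : Hg (wt w) (dg w g) g)
    (hP : Hg (wt ![dg w f, dg w g]) (dg ![dg w f, dg w g] P) P) :
    Hg (wt w) (dg ![dg w f, dg w g] P) (ev P f g) := by
  rw [ev_eq_sum]
  refine hg_sum _ _ fun u hu => hg_smul _ ?_
  have h1 := hP u (Finsupp.mem_support_iff.1 hu)
  rw [← h1]
  exact hg_word f g hf hg u

lemma coeff_dl (f : A K n) (p : Wd n × (Wd n)ᵐᵒᵖ) (hp : p ≠ 1) :
    ((dl f).coeff p = f.coeff p.1 ∧ p.2 = 1 ∧ p.1 ≠ 1) ∨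
    ((dl f).coeff p = - f.coeff p.2.unop ∧ p.1 = 1 ∧ p.2 ≠ 1) ∨
    ((dl f).coeff p = 0 ∧ p.1 ≠ 1 ∧ p.2 ≠ 1) := by
  classical
  obtain ⟨a, b⟩ := p
  unfold dl
  rw [coeff_sub, coeff_inl, coeff_inr]
  simp only
  by_cases h1 : b = 1
  · by_cases h2 : a = 1
    · subst h1 h2
      exact absurd rfl hp
    · left
      rw [if_pos h1, if_neg h2, sub_zero]
      exact ⟨rfl, h1, h2⟩
  · right
    by_cases h2 : a = 1
    · left
      rw [if_neg h1, if_pos h2, zero_sub]
      exact ⟨rfl, h2, h1⟩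
    · right
      rw [if_neg h1, if_neg h2, sub_zero]
      exact ⟨rfl, h2, h1⟩

lemma dl_coeff_one (f : A K n) : (dl f).coeff 1 = 0 := by
  classical
  unfold dl
  rw [coeff_sub, coeff_inl, coeff_inr]
  have h1 : (1 : Wd n × (Wd n)ᵐᵒᵖ).2 = 1 := rfl
  have h2 : (1 : Wd n × (Wd n)ᵐᵒᵖ).1 = 1 := rfl
  rw [if_pos h1, if_pos h2, h2, h1, unop_one, sub_self]

end

theorem top (K : Type*) [Field K] {n : ℕ} (w : Fin n → ℝ) (hw : Gen w) : TopFacts K w := by
  have h0 : ∀ u : Wd n, 0 ≤ wt w u := wt_nonneg hw.pos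
  have h02 : ∀ u : Wd n × (Wd n)ᵐᵒᵖ, 0 ≤ wt2 w u := wt2_nonneg hw.pos
  have hmul : ∀ f g : A K n, f ≠ 0 → g ≠ 0 → dg w (f * g) = dg w f + dg w g :=
    fun f g hf hg => dgr_mul (wt_mul w) hf hg
  have hne0 : ∀ f : A K n, 0 < dg w f → f ≠ 0 := by
    rintro f h rfl
    have hz : dg w (0 : A K n) = 0 := dgr_zero
    rw [hz] at h
    exact lt_irrefl _ h
  refine
  { hom := ?_
    dgt := fun f => dgr_top f
    ne := fun f hf => top_ne hf
    sub := fun f hf => sub_top_lt hf
    mul := fun f g hf hg => top_mul (wt_mul w) hf hg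
    smul := ?_
    uniq := ?_
    self := ?_
    lt := fun f g hf he => lt_iff hf he
    hom2 := ?_
    dgt2 := fun f => dgr_top f
    ne2 := fun f hf => top_ne hf
    sub2 := fun f hf => sub_top_lt hf
    mul2 := fun f g hf hg => top_mul (wt2_mul w) hf hg
    lt2 := fun f g hf he => lt_iff hf he
    dl' := ?_
    len := ?_
    com := ?_
    homtop := ?_ }
  · intro f
    rw [hom_iff]
    have h1 : dg w (FA.top w f) = dg w f := dgr_top f
    rw [h1]
    exact cmp_hg _ _
  · intro c f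
    by_cases hc : c = 0
    · rw [hc, zero_smul, zero_smul]
      unfold FA.top
      apply cmp_self
      exact hg_zero
    · unfold FA.top
      have h1 : dg w (c • f) = dg w f := dgr_smul hc f
      rw [h1, cmp_smul]
  · intro f t hf ht hd hlt
    rw [hom_iff, hd] at ht
    exact uniq hf ht hlt
  · intro f hf
    rw [hom_iff] at hf
    exact cmp_self hf
  · intro f
    rw [hom2_iff]
    have h1 : dg2 w (FA.top2 w f) = dg2 w f := dgr_top f
    rw [h1]
    exact cmp_hg _ _
  · intro f hf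
    unfold FA.top2 FA.top
    rw [dg2_dl hw.pos f]
    apply ext'
    intro p
    rw [coeff_cmp]
    by_cases hp : p = 1
    · rw [hp, dl_coeff_one, dl_coeff_one, ite_self]
    · rcases coeff_dl f p hp with ⟨h1, h2, h3⟩ | ⟨h1, h2, h3⟩ | ⟨h1, h2, h3⟩
      · rcases coeff_dl (cmp (wt w) (dg w f) f) p hp with ⟨k1, k2, k3⟩ | ⟨k1, k2, k3⟩ | ⟨k1, k2, k3⟩
        · rw [h1, k1, coeff_cmp]
          have h4 : wt2 w p = wt w p.1 := by
            unfold wt2
            rw [h2, unop_one, wt_one, add_zero]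
          rw [h4]
        · exact absurd h2 k3
        · exact absurd h2 k3
      · rcases coeff_dl (cmp (wt w) (dg w f) f) p hp with ⟨k1, k2, k3⟩ | ⟨k1, k2, k3⟩ | ⟨k1, k2, k3⟩
        · exact absurd h2 k3
        · rw [h1, k1, coeff_cmp]
          have h4 : wt2 w p = wt w p.2.unop := by
            unfold wt2
            rw [h2, wt_one, zero_add]
          rw [h4]
          split_ifs
          · rfl
          · rw [neg_zero]
        · exact absurd h2 k2
      · rcases coeff_dl (cmp (wt w) (dg w f) f) p hp with ⟨k1, k2, k3⟩ | ⟨k1, k2, k3⟩ | ⟨k1, k2, k3⟩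
        · exact absurd k2 h3
        · exact absurd k2 h2
        · rw [h1, k1, ite_self]
  · intro f hf
    by_cases hz : f = 0
    · refine ⟨0, fun u hu => ?_⟩
      rw [hz, MonoidAlgebra.coeff_zero, Finsupp.support_zero] at hu
      exact absurd hu (Finset.notMem_empty u)
    · obtain ⟨v, hv, -⟩ := exists_dgr (ω := wt w) hz
      refine ⟨v.toList.length, fun u hu => ?_⟩
      have h1 := hf u hu
      have h2 := hf v (Finsupp.mem_support_iff.2 hv)
      exact (hw.perm u v (h1.trans h2.symm)).length_eq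
  · intro f g hf hg
    have h1 := hne0 f hf
    have h2 := hne0 g hg
    have h3 := hmul f g h1 h2
    have h4 := hmul g f h2 h1
    have h5 : 0 < dgr (wt w) (f * g) := by
      change 0 < dg w (f * g)
      rw [h3]
      exact add_pos hf hg
    have h6 : dgr (wt w) (f * g) = dgr (wt w) (g * f) := by
      change dg w (f * g) = dg w (g * f)
      rw [h3, h4, add_comm]
    have h7 := lt_iff h5 h6
    unfold Com E
    rw [← h3]
    have h8 : cmp (wt w) (dgr (wt w) (f * g)) (f * g) = FA.top w f * FA.top w g :=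
      top_mul (wt_mul w) h1 h2
    have h9 : cmp (wt w) (dgr (wt w) (g * f)) (g * f) = FA.top w g * FA.top w f :=
      top_mul (wt_mul w) h2 h1
    rw [h8, h9] at h7
    exact h7
  · intro P f g hf hg hhf hhg hP hne
    rw [hom_iff] at hhf hhg hP
    have h1 := hg_ev P f g hhf hhg hP
    have h2 : dg w (ev P f g) = dg ![dg w f, dg w g] P := hg_dgr h1 hne
    refine ⟨?_, h2⟩
    rw [hom_iff, h2]
    exact h1

end Pool.Agent.Lib.MP_e1f7e2_al.FA.H47
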